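import Pool.Agent.K7.H70.ST.A
import Pool.Agent.K7.H70.AS.D

/-!
# The value at one over every subfield, up to a 2-adic unit
-/

set_option autoImplicit false
set_option linter.unusedSectionVars false

open Complex NumberField IsDedekindDomain WeierstrassCurve
open scoped PeriodPair nonZeroDivisors

namespace Pool.Agent.K7.H70.ST

open Pool.Agent.K7.H70.SM
open Pool.Agent.K7.H56
open Pool.Agent.K7.H56.P
open Pool.Agent.R430
open Pool.Agent.Y696 Pool.Agent.W192.HK Pool.Agent.TH936.CM H667R3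
open Pool.Agent.TH936.PU
open Pool.Agent.K7.H70.AS
open Pool.Agent.K7.H56.M (unr2_down)
open Pool.Agent.TH841.SH.D (Pt act)

/-- the value at one -/
def Val2 (k : Type) [Field k] [NumberField k] : Prop :=
  ∃ Lf : ℂ → ℂ, ARZ k Lf ∧
    ∀ (Λ : PeriodPair) (ω : ℝ), IsPeriods Λ ω →
      ∀ (Γ : Type) [LinearOrderedCommGroupWithZero Γ] (v : Valuation ℂ Γ), v 2 < 1 →
        v (Lf 1 * (Real.sqrt |(discr k : ℝ)| : ℝ) / period k Λ ω) = 1

section
variable {K : Type} [Field K] [NumberField K]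

theorem val_big (ι : Pool.Agent.Y688.RR →+* 𝓞 K) (h3 : Add3 K) {d : ℕ}
    (hd : Module.finrank ℚ K = 2 * d) (hB : Base ι d) {f : ℂ → ℂ} (hf : VV ι (X0 1) f)
    (hdisc : ¬ (2 : ℤ) ∣ discr K) (hom : ∃ ω : K, ω ^ 2 + ω + 1 = 0) : Val2 K := by
  have hval := hB f hf
  refine ⟨Lam f, arz_big ι h3 hf (ne_of_base hB hf), fun Λ ω hΛ Γ _ v hv => ?_⟩
  obtain ⟨Ω, hC⟩ := cur_of hΛ.g₂ hΛ.g₃
  have h6 := hval Λ Ω hC Γ v hv
  have h7 := hval Λ Ω hC Γ (vc v) (vc_two hv)
  rw [vc_apply, vc_apply] at h7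
  have h8 : v ((Real.sqrt |((3 : ℤ) : ℝ)| : ℝ) : ℂ) = 1 := v_sqrtD hv (by norm_num)
  have h9 : v ((Real.sqrt |(discr K : ℝ)| : ℝ) : ℂ) = 1 := v_sqrtD hv hdisc
  have hr1 : InfinitePlace.nrRealPlaces K = 0 := by
    obtain ⟨ω', hω'⟩ := hom
    exact InfinitePlace.IsPrimitiveRoot.nrRealPlaces_eq_zero_of_two_lt (by norm_num) (prim_three hω')
  have hr2 : InfinitePlace.nrComplexPlaces K = d := by
    have h10 := InfinitePlace.card_add_two_mul_card_eq_rank K
    rw [hr1, hd] at h10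
    omega
  have hL := HL_of_Cur hC
  have hΩ : v Ω ≠ 0 := (Valuation.ne_zero_iff _).2 hL.ne
  have hΩ' : v ((starRingEnd ℂ) Ω) ≠ 0 := (Valuation.ne_zero_iff _).2 (by
    rw [Ne, map_eq_zero]; exact hL.ne)
  unfold period
  rw [hr1, hr2, pow_zero, one_mul, area hC.lat, map_div₀, map_mul, map_pow, map_mul, h8, h9,
    one_mul, mul_one, Lam_one, map_mul, h6, h7, map_mul, mul_pow]
  exact div_self (mul_ne_zero (pow_ne_zero _ hΩ) (pow_ne_zero _ hΩ'))

variable {K₀ : Type} [Field K₀] [NumberField K₀] [Algebra K₀ K]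

theorem val_small (ι : Pool.Agent.Y688.RR →+* 𝓞 K) {d : ℕ}
    (hd : Module.finrank ℚ K = 2 * d) (hB : Base ι d) {f : ℂ → ℂ} (hf : VV ι (X0 1) f)
    (hdisc : ¬ (2 : ℤ) ∣ discr K)
    (h2K : Module.finrank K₀ K = 2) (h3 : Add3 K₀) (hns : ∀ x : K₀, x ^ 2 ≠ -3) : Val2 K₀ := by
  have hval := hB f hf
  refine ⟨_, arz_small ι hf (ne_of_base hB hf) h2K h3 hns, fun Λ ω hΛ Γ _ v hv => ?_⟩
  obtain ⟨Ω, hC⟩ := cur_of hΛ.g₂ hΛ.g₃
  have k1 := hval Λ Ω hC Γ (vc v) (vc_two hv)
  rw [vc_apply, vc_apply] at k1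
  rw [v_period_conj hC hΛ.real hv] at k1
  have k2 : v ((Real.sqrt |((3 : ℤ) : ℝ)| : ℝ) : ℂ) = 1 := v_sqrtD hv (by norm_num)
  have k3 : v ((Real.sqrt |(discr K₀ : ℝ)| : ℝ) : ℂ) = 1 :=
    v_sqrtD hv (fun hd => hdisc (hd.trans (discr_dvd_discr K₀ K)))
  have k4 : v ((2 * |((starRingEnd ℂ) Λ.ω₁ * Λ.ω₂).im| : ℝ) : ℂ) = v (ω : ℂ) ^ 2 := by
    rw [area hC.lat, map_mul, map_mul, k2, one_mul, v_period hC hΛ.real hv,
      v_period_conj hC hΛ.real hv]
    exact (pow_two _).symm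
  have k5 : InfinitePlace.nrRealPlaces K₀ + 2 * InfinitePlace.nrComplexPlaces K₀ = d := by
    rw [InfinitePlace.card_add_two_mul_card_eq_rank K₀]
    have e2 := Module.finrank_mul_finrank ℚ K₀ K
    rw [h2K, hd] at e2
    omega
  have hω0 : v (ω : ℂ) ≠ 0 := (Valuation.ne_zero_iff _).2 (by exact_mod_cast hΛ.real.1.1.ne')
  unfold period
  simp only [map_one]
  rw [map_div₀, map_mul, map_mul, map_pow, map_pow, k4, k3, mul_one, k1, ← pow_mul,
    ← pow_add, k5]
  exact div_self (pow_ne_zero _ hω0)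

end

section
variable {M K : Type} [Field M] [NumberField M] [IsCyclotomicExtension {9} ℚ M] [Field K]
  [NumberField K] [Algebra M K] [IsGalois M K]

/-- **every subfield** -/
theorem val9 (hb : Base9) (hr : ∃ r : ℕ, Module.finrank M K = 2 ^ r) (hG : Gd M K)
    {k : Type} [Field k] [NumberField k] [Algebra k K] : Val2 k := by
  obtain ⟨r, hr⟩ := hr
  have hGK : Gz K := (gz9 M).step hr hG
  have hU : Unr2 K := hGK.two
  have hNG : NG K := ng_nine hr
  have h3 : Add3 k := add3_of_ng (ng_small hNG)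
  by_cases hns : ∀ x : k, x ^ 2 ≠ -3
  · obtain ⟨ω, hω⟩ := om9 M
    set a : K := algebraMap M K (2 * ω + 1) with haK
    have ha : a ^ 2 = -3 := by
      rw [haK, ← map_pow]
      have : (2 * ω + 1) ^ 2 = -3 := by linear_combination 4 * hω
      rw [this, map_neg, map_ofNat]
    set T : IntermediateField k K := IntermediateField.adjoin k {a} with hT
    have haT : a ∈ T := IntermediateField.mem_adjoin_simple_self k a
    have haT' : (⟨a, haT⟩ : T) ^ 2 = -3 := Subtype.ext (by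
      show a ^ 2 = algebraMap T K (-3)
      rw [map_neg, map_ofNat]
      exact ha)
    obtain ⟨ι'⟩ := exists_iota (N := T) ⟨((⟨a, haT⟩ : T) - 1) / 2, by
      field_simp
      linear_combination haT'⟩
    set ι : Pool.Agent.Y688.RR →+* 𝓞 T :=
      ι'.comp (RingEquiv.subringCongr RR_eis : Pool.Agent.Y688.RR →+* eis) with hι
    obtain ⟨d, hd, hB⟩ := base_om hb hr hU hG haT' ι
    obtain ⟨f, hf⟩ := exists_VV ι hd (unr2_down (F := T) (K := K) hU)
    have h2 : Module.finrank k T = 2 := by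
      have hirr : Irreducible (Polynomial.X ^ 2 - Polynomial.C (-3 : k)) := by
        rw [X_pow_sub_C_irreducible_iff_of_prime Nat.prime_two]
        exact fun b => hns b
      have hmin : minpoly k a = Polynomial.X ^ 2 - Polynomial.C (-3 : k) := by
        refine (minpoly.eq_of_irreducible_of_monic hirr ?_ (Polynomial.monic_X_pow_sub_C _ two_ne_zero)).symm
        rw [map_sub, map_pow, Polynomial.aeval_X, Polynomial.aeval_C, map_neg, map_ofNat, ha, sub_self]
      have hint : IsIntegral k a := by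
        refine ⟨Polynomial.X ^ 2 - Polynomial.C (-3 : k), Polynomial.monic_X_pow_sub_C _ two_ne_zero, ?_⟩
        rw [Polynomial.eval₂_sub, Polynomial.eval₂_pow, Polynomial.eval₂_X, Polynomial.eval₂_C, map_neg,
          map_ofNat, ha, sub_self]
      have h3 := IntermediateField.adjoin.finrank hint
      rw [hmin, Polynomial.natDegree_X_pow_sub_C] at h3
      exact h3
    exact val_small ι hd hB hf (fun h => hGK.disc_odd (h.trans (discr_dvd_discr T K))) h2 h3 hns
  · push Not at hns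
    obtain ⟨a, ha⟩ := hns
    have hom : ((a - 1) / 2) ^ 2 + (a - 1) / 2 + 1 = 0 := by
      field_simp
      linear_combination ha
    obtain ⟨ι'⟩ := exists_iota (N := k) ⟨(a - 1) / 2, hom⟩
    set ι : Pool.Agent.Y688.RR →+* 𝓞 k :=
      ι'.comp (RingEquiv.subringCongr RR_eis : Pool.Agent.Y688.RR →+* eis) with hι
    obtain ⟨d, hd, hB⟩ := base_om hb hr hU hG ha ι
    obtain ⟨f, hf⟩ := exists_VV ι hd (unr2_down (F := k) (K := K) hU)
    exact val_big ι h3 hd hB hf (fun h => hGK.disc_odd (h.trans (discr_dvd_discr k K))) ⟨_, hom⟩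

end

end Pool.Agent.K7.H70.ST
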