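import Pool.Agent.K7.H70.SM.F
import Pool.Agent.Y664.QA3

/-!
# Descent of the vanishing of the 2-Selmer group along Galois extensions
-/

set_option autoImplicit false
set_option linter.unusedSectionVars false

open WeierstrassCurve IsDedekindDomain NumberField WithZero
open scoped Classical

namespace Pool.Agent.K7.H70.ST

open Pool.Agent.Y696
open Pool.Agent.TH841.SH.D
open Pool.Agent.TH841.SH (IsR IsX gf not_isX isX_some isX_zero)
open Pool.Agent.Y664.QA
open Pool.Agent.K7.H70.SM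
open Pool.Agent.K7.H56.P (Gd)

section desc
variable {k K : Type} [Field k] [CharZero k] [Field K] [CharZero K] [Algebra k K] [Normal k K]
  (j : AlgebraicClosure k ≃ₐ[k] AlgebraicClosure K)

/-- descent along a normal extension -/
theorem desc' (hodd : ∀ R : Pt (E0 K) K, R + R = 0 → R = 0) {g : Coch (E0 k)}
    (hg : IsCoc (E0 k) g) (h2 : ∀ t, g t + g t = 0) {T : Pt (E0 K) (AlgebraicClosure K)}
    (hT : T + T = 0) (h : ∀ σ : Gal K, rst j g σ = act (E0 K) σ.toAlgHom T - T) :
    ∃ T₀ : Pt (E0 k) (AlgebraicClosure k), T₀ + T₀ = 0 ∧ ∀ t : Gal k,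
      g t = act (E0 k) t.toAlgHom T₀ - T₀ := by
  let T₀ : Pt (E0 k) (AlgebraicClosure k) :=
    act (E0 k) (j.symm : AlgebraicClosure K →ₐ[k] AlgebraicClosure k)
      ((tr k K (AlgebraicClosure K)).symm T)
  have hT₀ : tr k K (AlgebraicClosure K) (act (E0 k) (j : _ →ₐ[k] _) T₀) = T := by
    have e : ((j : AlgebraicClosure k →ₐ[k] AlgebraicClosure K)).comp
        (j.symm : AlgebraicClosure K →ₐ[k] AlgebraicClosure k) = AlgHom.id k _ :=
      AlgHom.ext fun x => j.apply_symm_apply x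
    change tr k K (AlgebraicClosure K) (act (E0 k) (j : _ →ₐ[k] _)
      (act (E0 k) (j.symm : AlgebraicClosure K →ₐ[k] AlgebraicClosure k)
        ((tr k K (AlgebraicClosure K)).symm T))) = T
    rw [act_act, e, act_id, AddEquiv.apply_symm_apply]
  have inj : ∀ P : Pt (E0 k) (AlgebraicClosure k),
      tr k K (AlgebraicClosure K) (act (E0 k) (j : _ →ₐ[k] _) P) = 0 → P = 0 := by
    intro P hP
    apply act_inj (E0 k) (j : _ →ₐ[k] AlgebraicClosure K)
    apply (tr k K (AlgebraicClosure K)).injective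
    rw [hP, map_zero, map_zero]
  have hT₂ : T₀ + T₀ = 0 := inj _ (by rw [map_add, map_add, hT₀, hT])
  let b : Coch (E0 k) := fun t : Gal k => act (E0 k) t.toAlgHom T₀ - T₀
  let g₁ : Coch (E0 k) := g - b
  have hg₁ : ∀ t, g₁ t = g t - (act (E0 k) t.toAlgHom T₀ - T₀) := fun _ => rfl
  have hc : IsCoc (E0 k) g₁ := by
    have hb : IsCoc (E0 k) b := coc_of_pt (E0 k) T₀
    have : IsCoc (E0 k) (g + -b) := coc_add hg (coc_neg hb)
    rw [← sub_eq_add_neg] at this
    exact this
  have h2' : ∀ t, g₁ t + g₁ t = 0 := by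
    intro t
    rw [hg₁]
    have e : g t - (act (E0 k) t.toAlgHom T₀ - T₀) + (g t - (act (E0 k) t.toAlgHom T₀ - T₀)) =
        (g t + g t) - ((act (E0 k) t.toAlgHom T₀ + act (E0 k) t.toAlgHom T₀) - (T₀ + T₀)) := by
      abel
    rw [e, h2, ← map_add, hT₂, map_zero]
    abel
  have hN : ∀ σ : Gal K, g₁ (res j σ) = 0 := by
    intro σ
    apply inj
    rw [hg₁, map_sub, map_sub, map_sub, map_sub, tr_act_res, hT₀, ← rst_apply, h σ, sub_self]
  have key : ∀ (σ : Gal K) (t : Gal k), act (E0 k) (res j σ).toAlgHom (g₁ t) = g₁ t := by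
    intro σ t
    obtain ⟨σ', hσ'⟩ := conj_ex j σ t
    have a := hc.2 (res j σ) t
    have b := hc.2 t (res j σ')
    rw [hN, zero_add] at a
    rw [hN, map_zero, add_zero] at b
    rw [← a, hσ', b]
  have hz : ∀ t, g₁ t = 0 := by
    intro t
    apply inj
    obtain ⟨R, hR⟩ := fixpt (tr k K (AlgebraicClosure K) (act (E0 k) (j : _ →ₐ[k] _) (g₁ t)))
      (fun σ => by rw [← tr_act_res, key])
    have hR2 : R + R = 0 := by
      apply act_inj (E0 K) (Algebra.ofId K (AlgebraicClosure K))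
      rw [map_add, hR, map_zero, ← map_add, ← map_add, h2', map_zero, map_zero]
    rw [← hR, hodd R hR2, map_zero]
  refine ⟨T₀, hT₂, fun t => ?_⟩
  have := hz t
  rw [hg₁] at this
  exact sub_eq_zero.1 this

end desc

/-- the 2-Selmer group and the 2-torsion vanish -/
structure SelV (K : Type) [Field K] [NumberField K] : Prop where
  fin : Finite (E0 K).toAffine.Point
  odd : Odd (Nat.card (E0 K).toAffine.Point)
  sel : ∀ f : Coch (E0 K), IsCoc (E0 K) f → (∀ σ, f σ + f σ = 0) →
      (∀ v : HeightOneSpectrum (𝓞 K), LocTriv (E0 K) (v.adicCompletion K) f) →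
      ∃ T : Pt (E0 K) (AlgebraicClosure K), T + T = 0 ∧
        ∀ σ : Gal K, f σ = act (E0 K) σ.toAlgHom T - T

lemma selv_of_gz {K : Type} [Field K] [NumberField K] (h : Gz K) : SelV K :=
  ⟨h.pts_odd.1, h.pts_odd.2, fun _ h1 h2 h3 => h.selE h1 h2 h3⟩

section
variable {k K : Type} [Field k] [NumberField k] [Field K] [NumberField K] [Algebra k K]

/-- the points over a subfield -/
lemma pts_down (hf : Finite (E0 K).toAffine.Point) (ho : Odd (Nat.card (E0 K).toAffine.Point)) :
    Finite (E0 k).toAffine.Point ∧ Odd (Nat.card (E0 k).toAffine.Point) := by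
  have e1 : (E0 k).baseChange K = E0 K := E0_map _
  have e2 : (E0 k).baseChange k = E0 k := E0_map _
  have hf1 : Finite (Pt (E0 k) K) := by
    change Finite ((E0 k).baseChange K).toAffine.Point
    rw [e1]
    exact hf
  have ho1 : Odd (Nat.card (Pt (E0 k) K)) := by
    change Odd (Nat.card ((E0 k).baseChange K).toAffine.Point)
    rw [e1]
    exact ho
  have hi := act_inj (E0 k) (Algebra.ofId k K)
  have hf0 : Finite (Pt (E0 k) k) := Finite.of_injective _ hi
  have hd : Nat.card (Pt (E0 k) k) ∣ Nat.card (Pt (E0 k) K) :=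
    AddSubgroup.card_dvd_of_injective (act (E0 k) (Algebra.ofId k K)) hi
  have ho0 : Odd (Nat.card (Pt (E0 k) k)) := ho1.of_dvd_nat hd
  have h1 : Finite ((E0 k).baseChange k).toAffine.Point := hf0
  have h2 : Odd (Nat.card ((E0 k).baseChange k).toAffine.Point) := ho0
  rw [e2] at h1 h2
  exact ⟨h1, h2⟩

theorem SelV.down [Normal k K] (h : SelV K) : SelV k := by
  obtain ⟨hf, ho⟩ := pts_down (k := k) h.fin h.odd
  refine ⟨hf, ho, fun g hg hg2 hgl => ?_⟩
  have hcl : IsAlgClosure k (AlgebraicClosure K) :=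
    ⟨inferInstance, Algebra.IsAlgebraic.trans k K (AlgebraicClosure K)⟩
  let j : AlgebraicClosure k ≃ₐ[k] AlgebraicClosure K :=
    IsAlgClosure.equiv k (AlgebraicClosure k) (AlgebraicClosure K)
  have hrc : IsCoc (E0 K) (rst j g) := rst_coc j hg
  have hr2 : ∀ σ, rst j g σ + rst j g σ = 0 := by
    intro σ
    rw [rst_apply, ← map_add, ← map_add, hg2, map_zero, map_zero]
  obtain ⟨T, hT, hTσ⟩ := h.sel (rst j g) hrc hr2 (rst_loc_all k K j hgl)
  exact desc' j (odd_two h.odd) hg hg2 hT hTσ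

end

section
variable {K : Type} [Field K] [NumberField K]

/-- **the Tate-Shafarevich group** -/
theorem SelV.sha (hK : SelV K) (x : Pool.Agent.TH841.NF.D.Sha (E0 K)) (hx : x + x = 0) :
    x = 0 := by
  obtain ⟨⟨f, hf⟩, rfl⟩ := QuotientAddGroup.mk_surjective x
  have h1 : (⟨f, hf⟩ + ⟨f, hf⟩ : Pool.Agent.TH841.NF.D.shaCoc (E0 K)) ∈
      (cob (E0 K)).addSubgroupOf (Pool.Agent.TH841.NF.D.shaCoc (E0 K)) := by
    rw [← QuotientAddGroup.eq_zero_iff]
    exact hx
  obtain ⟨Q, hQ⟩ : IsCob (E0 K) (f + f) := h1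
  obtain ⟨Q', hQ'⟩ := halve0 Q
  have hf' : Pool.Agent.TH841.NF.D.IsShaCoc (E0 K) f := hf
  let b : Coch (E0 K) := fun σ : Gal K => act (E0 K) σ.toAlgHom Q' - Q'
  let g : Coch (E0 K) := f - b
  have hgσ : ∀ σ, g σ = f σ - (act (E0 K) σ.toAlgHom Q' - Q') := fun σ => rfl
  have hgc : IsCoc (E0 K) g := by
    have h7 := coc_add hf'.1 (coc_neg (coc_of_pt (E0 K) Q'))
    have h8 : g = f + -b := by
      funext σ
      exact sub_eq_add_neg _ _
    rw [h8]
    exact h7
  have hg2 : ∀ σ, g σ + g σ = 0 := by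
    intro σ
    have h3 : f σ + f σ = act (E0 K) σ.toAlgHom Q - Q := hQ σ
    rw [hgσ]
    have e : f σ - (act (E0 K) σ.toAlgHom Q' - Q') + (f σ - (act (E0 K) σ.toAlgHom Q' - Q')) =
        (f σ + f σ) - ((act (E0 K) σ.toAlgHom Q' + act (E0 K) σ.toAlgHom Q') - (Q' + Q')) := by
      abel
    rw [e, h3, ← map_add, ← hQ', sub_self]
  have hgl : ∀ v : HeightOneSpectrum (𝓞 K), LocTriv (E0 K) (v.adicCompletion K) g := by
    intro v ι
    obtain ⟨P, hP⟩ := hf'.2.1 v ι
    refine ⟨P - act (E0 K) ι Q', fun τ σ h => ?_⟩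
    have h3 := hP τ σ h
    have h4 : act (E0 K) ι (act (E0 K) σ.toAlgHom Q') =
        act (E0 K) (τ.toAlgHom.restrictScalars K) (act (E0 K) ι Q') := by
      rw [act_act, act_act]
      congr 2
      ext z
      exact (h z).symm
    rw [hgσ, map_sub, map_sub, map_sub, h3, h4]
    abel
  obtain ⟨T, hT, h⟩ := hK.sel g hgc hg2 hgl
  refine (QuotientAddGroup.eq_zero_iff (⟨f, hf⟩ : Pool.Agent.TH841.NF.D.shaCoc (E0 K))).2 ?_
  change IsCob (E0 K) f
  refine ⟨T + Q', fun σ => ?_⟩
  have h5 := h σ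
  rw [hgσ] at h5
  have h6 : f σ = (act (E0 K) σ.toAlgHom T - T) + (act (E0 K) σ.toAlgHom Q' - Q') := by
    rw [← h5]; abel
  rw [h6, map_add]
  abel

end

section
variable {M K : Type} [Field M] [NumberField M] [IsCyclotomicExtension {9} ℚ M] [Field K]
  [NumberField K] [Algebra M K] [IsGalois M K]

/-- **every subfield** -/
theorem selv9 (hr : ∃ r : ℕ, Module.finrank M K = 2 ^ r) (hG : Gd M K)
    {k : Type} [Field k] [NumberField k] [Algebra k K] : SelV k := by
  obtain ⟨r, hr⟩ := hr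
  have hGK : Gz K := (gz9 M).step hr hG
  obtain ⟨ζ0, hζ0⟩ := exists_z9 M
  set ζ : K := algebraMap M K ζ0 with hζd
  have hζ : IsPrimitiveRoot ζ 9 := hζ0.map_of_injective (algebraMap M K).injective
  set T : IntermediateField k K := IntermediateField.adjoin k {ζ} with hT
  have hcyc : IsCyclotomicExtension {9} k T := hζ.intermediateField_adjoin_isCyclotomicExtension k
  have hgal : IsGalois k T := IsCyclotomicExtension.isGalois {9} k T
  have hmem : ζ ∈ T := IntermediateField.mem_adjoin_simple_self k ζ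
  have htp : IsPrimitiveRoot (⟨ζ, hmem⟩ : T) 9 := by
    refine IsPrimitiveRoot.of_map_of_injective (f := algebraMap T K) ?_ (algebraMap T K).injective
    exact hζ
  obtain ⟨f, hf⟩ := exists_alg9 (M := M) (K := K) (T := T) htp
  let _ : Algebra M T := f.toAlgebra
  have hst : IsScalarTower M T K := IsScalarTower.of_algebraMap_eq' hf.symm
  have hgal2 : IsGalois T K := IsGalois.tower_top_of_isGalois M T K
  have h1 : SelV T := (selv_of_gz hGK).down (k := T) (K := K)
  exact h1.down (k := k) (K := T)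

end

end Pool.Agent.K7.H70.ST
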